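import Mathlib
import Pool.Agent.H79.TD.Stm6
import Pool.Agent.H6.TD.Cor

/-!
# Project SV, module CPT: points on a curve without linear components
-/

set_option autoImplicit false

open MvPolynomial Module Pool.Agent.H77.TF Pool.Agent.H79.TD

namespace Pool.Agent.H15.TD

variable {K : Type} [Field K] [Fintype K]

theorem TH_mul (f g : MvPolynomial (Fin 3) K) : TH (f * g) = f * TH g + g * TH f := by
  unfold TH
  rw [Finset.mul_sum, Finset.mul_sum, ← Finset.sum_add_distrib]
  refine Finset.sum_congr rfl fun j _ => ?_
  rw [pderiv_mul]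
  ring

theorem euler_eval {f : MvPolynomial (Fin 3) K} {α : ℕ} (hf : f.IsHomogeneous α) (x : Fin 3 → K) :
    ∑ i, x i * eval x (pderiv i f) = (α : K) * eval x f := by
  have h := congrArg (eval x) hf.sum_X_mul_pderiv
  rw [map_sum, map_nsmul, nsmul_eq_mul] at h
  rw [← h]
  exact Finset.sum_congr rfl fun i _ => by rw [map_mul, eval_X]

theorem TH_eval {f : MvPolynomial (Fin 3) K} {α : ℕ} (hf : f.IsHomogeneous α) (x : Fin 3 → K) :
    eval x (TH f) = (α : K) * eval x f := by
  rw [← euler_eval hf x]
  unfold TH
  rw [map_sum]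
  exact Finset.sum_congr rfl fun i _ => by
    rw [map_mul, map_pow, eval_X, FiniteField.pow_card]

theorem TH_pderiv_eval {f : MvPolynomial (Fin 3) K} {α : ℕ} (hf : f.IsHomogeneous α)
    (x : Fin 3 → K) (j : Fin 3) :
    eval x (pderiv j (TH f)) = ((α : K) - 1) * eval x (pderiv j f) := by
  classical
  have hE := congrArg (fun p => eval x (pderiv j p)) hf.sum_X_mul_pderiv
  simp only [map_sum, map_nsmul, nsmul_eq_mul, pderiv_mul, map_add, map_mul, eval_X, pderiv_X,
    Finset.sum_add_distrib] at hE
  have h1 : ∑ i, eval x ((Pi.single j (1 : MvPolynomial (Fin 3) K) : Fin 3 → MvPolynomial (Fin 3) K) i) *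
      eval x (pderiv i f) = eval x (pderiv j f) := by
    rw [Finset.sum_eq_single j]
    · simp
    · intro i _ hi
      simp [Pi.single_apply, hi, Ne.symm hi]
    · intro h
      exact absurd (Finset.mem_univ j) h
  have h2 : eval x (pderiv j (TH f)) = ∑ i, x i * eval x (pderiv j (pderiv i f)) := by
    unfold TH
    rw [map_sum, map_sum]
    refine Finset.sum_congr rfl fun i _ => ?_
    rw [pderiv_mul, pderiv_pow, map_add, map_mul, map_mul, map_mul, map_mul]
    have h3 : eval x ((Fintype.card K : ℕ) : MvPolynomial (Fin 3) K) = 0 := by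
      rw [map_natCast, FiniteField.cast_card_eq_zero]
    rw [h3, zero_mul, zero_mul, zero_mul, zero_add, map_pow, eval_X, FiniteField.pow_card]
  rw [h2]
  rw [h1, Derivation.map_natCast, map_zero, zero_mul, zero_add, map_natCast] at hE
  linear_combination hE

/-- **Module CPT.** -/
theorem t_CPT (hNCL : S_NCL) (hBZ2 : S_BZ2) : S_CPT := by
  classical
  intro K _ _ α f R hf hf0 hsq hα hlin hR0 hRp hRf
  rcases Nat.eq_zero_or_pos α with h0 | hpos
  · subst h0
    have hR : R = ∅ := by
      rw [Finset.eq_empty_iff_forall_notMem]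
      intro x hx
      have h1 : homogeneousComponent 0 f = f := homogeneousComponent_eq_self hf
      have h2 := hRf x hx
      rw [← h1, homogeneousComponent_zero, eval_C] at h2
      apply hf0
      rw [← h1, homogeneousComponent_zero, h2, C_0]
    rw [hR]
    simp
  · have key : ∀ G : MvPolynomial (Fin 3) K, Irreducible G → G ∣ f → G ∣ TH f → False := by
      rintro G hG ⟨h, hh⟩ hd
      have hG0 : G ≠ 0 := hG.ne_zero
      have hh0 : h ≠ 0 := by
        rintro rfl
        exact hf0 (by rw [hh, mul_zero])
      rw [hh, TH_mul] at hd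
      have h1 : G ∣ h * TH G := (dvd_add_right (dvd_mul_right _ _)).1 hd
      have h2 : G ∣ TH G := by
        rcases hG.prime.dvd_or_dvd h1 with h3 | h3
        · exfalso
          obtain ⟨h', hh'⟩ := h3
          exact hG.not_isUnit (hsq G ⟨h', by rw [hh, hh']; ring⟩)
        · exact h3
      have hf' := hf
      rw [hh] at hf'
      obtain ⟨h3, h4⟩ := Pool.Agent.H6.TD.hom_factor hf' hG0 hh0
      obtain ⟨a, ha, h5⟩ := hNCL K G.totalDegree G hG h3
        (fun k hk hk' => hα k hk (by omega)) h2
      exact hlin a ha (h5.trans ⟨h, hh⟩)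
    have hfu : ¬ IsUnit f := by
      intro hu
      have h1 := hf.totalDegree hf0
      have h2 : f.totalDegree = 0 := by
        obtain ⟨c, hc, h3⟩ := MvPolynomial.isUnit_iff_eq_C_of_isReduced.1 hu
        rw [h3, totalDegree_C]
      omega
    have hg0 : TH f ≠ 0 := by
      intro h0
      obtain ⟨G, hG, hGf⟩ := WfDvdMonoid.exists_irreducible_factor hfu hf0
      exact key G hG hGf (by rw [h0]; exact dvd_zero _)
    have hrel : IsRelPrime f (TH f) := by
      intro d hd1 hd2
      by_contra hu
      have hd0 : d ≠ 0 := by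
        rintro rfl
        exact hf0 (zero_dvd_iff.1 hd1)
      obtain ⟨G, hG, hGd⟩ := WfDvdMonoid.exists_irreducible_factor hu hd0
      exact key G hG (hGd.trans hd1) (hGd.trans hd2)
    have hTh : (TH f).IsHomogeneous (α + Fintype.card K - 1) := by
      unfold TH
      refine IsHomogeneous.sum _ _ _ fun i _ => ?_
      have h1 := (isHomogeneous_X_pow (R := K) i (Fintype.card K)).mul (hf.pderiv (i := i))
      have h2 : Fintype.card K + (α - 1) = α + Fintype.card K - 1 := by omega
      rwa [h2] at h1
    refine hBZ2 K α (α + Fintype.card K - 1) f (TH f) R hf hTh hf0 hg0 hrel hR0 hRp ?_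
    intro x hx
    refine ⟨hRf x hx, by rw [TH_eval hf, hRf x hx, mul_zero], ?_⟩
    -- a tangent vector
    let L : (Fin 3 → K) →ₗ[K] K :=
      { toFun := fun t => ∑ i, t i * eval x (pderiv i f)
        map_add' := fun s t => by
          rw [← Finset.sum_add_distrib]
          exact Finset.sum_congr rfl fun i _ => by rw [Pi.add_apply]; ring
        map_smul' := fun c t => by
          rw [RingHom.id_apply, smul_eq_mul, Finset.mul_sum]
          exact Finset.sum_congr rfl fun i _ => by rw [Pi.smul_apply, smul_eq_mul]; ring }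
    have h1 := LinearMap.finrank_range_add_finrank_ker L
    rw [Module.finrank_fin_fun] at h1
    have h2 : finrank K (LinearMap.range L) ≤ 1 := by
      have := Submodule.finrank_le (LinearMap.range L)
      rwa [Module.finrank_self] at this
    have h3 : ¬ LinearMap.ker L ≤ Submodule.span K {x} := by
      intro h
      have h4 := Submodule.finrank_mono h
      have h5 := finrank_span_singleton (K := K) (hR0 x hx)
      omega
    obtain ⟨t, ht, htx⟩ := Set.not_subset.1 h3
    have ht' : ∑ i, t i * eval x (pderiv i f) = 0 := ht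
    refine ⟨t, fun c hc => htx ?_, ht', ?_⟩
    · rw [hc]
      exact Submodule.smul_mem _ _ (Submodule.mem_span_singleton_self x)
    · have h4 : ∀ i, t i * eval x (pderiv i (TH f)) =
          ((α : K) - 1) * (t i * eval x (pderiv i f)) := fun i => by
        rw [TH_pderiv_eval hf]
        ring
      rw [Finset.sum_congr rfl fun i _ => h4 i, ← Finset.mul_sum, ht', mul_zero]

end Pool.Agent.H15.TD
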