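import Mathlib
import Pool.Agent.H79.TD.Stm
import Pool.Agent.H15.TF.CIB

/-!
# Project TD, module FRE
-/

set_option autoImplicit false

open MvPolynomial Module

namespace Pool.Agent.H15.TD

open Pool.Agent.H77.TF Pool.Agent.H79.TD Pool.Agent.H15.TF

theorem t_FRE (hDD3 : S_DD3) (hMR3 : S_MR3) (hKR3 : S_KR3) (hSAI : S_SAI) (hPRI : S_PRI)
    (hCOR : S_COR) : S_FRE := by
  intro K _ _ ν _ _ A u w f g hA hf0 hf hmin hg hfg hsum
  have hg0 : g ≠ 0 := by
    rintro rfl
    exact hfg (dvd_zero _)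
  set Q : MvPolynomial (Fin 3) K := ∏ i, lin (A i) with hQ
  have hlin : ∀ i, lin (A i) ≠ 0 := fun i => (hPRI K 3 (A i) (hA.1 i)).1.ne_zero
  have hQne : Q ≠ 0 := Finset.prod_ne_zero_iff.2 fun i _ => hlin i
  have hQh : Q.IsHomogeneous (Fintype.card ν) := by
    have := MvPolynomial.IsHomogeneous.prod (Finset.univ : Finset ν) (fun i => lin (A i))
      (fun _ => 1) (fun i _ => lin_hom (A i))
    simpa [hQ] using this
  have hvanish : ∀ h : MvPolynomial (Fin 3) K, (∀ x ∈ Pts A, eval x h = 0) →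
      ∀ x : Fin 3 → K, eval x (h * Q) = 0 := by
    intro h hh x
    rw [map_mul]
    by_cases hx : x ∈ Pts A
    · rw [hh x hx, zero_mul]
    · have : eval x Q = 0 := by
        by_contra hne
        exact hx ((mem_Pts_iff A x).2 hne)
      rw [this, mul_zero]
  obtain ⟨φ₀, hφD, hφd, hφh⟩ :=
    hMR3 K (f * Q) (u + Fintype.card ν) (hf.1.mul hQh) (hvanish f hf.2)
  obtain ⟨ψ₀, hψD, hψd, hψh⟩ :=
    hMR3 K (g * Q) (w + Fintype.card ν) (hg.1.mul hQh) (hvanish g hg.2)
  have hφd := hφd (mul_ne_zero hf0 hQne)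
  have hψd := hψd (mul_ne_zero hg0 hQne)
  have e1 : u + Fintype.card ν - (Fintype.card K + 1) = Fintype.card K - w := by omega
  have e2 : w + Fintype.card ν - (Fintype.card K + 1) = Fintype.card K - u := by omega
  rw [e1] at hφh
  rw [e2] at hψh
  have hφL : φ₀ ∈ LD A := (hDD3 K ν A hA φ₀).2 (by rw [hφD]; exact dvd_mul_left _ _)
  have hψL : ψ₀ ∈ LD A := (hDD3 K ν A hA ψ₀).2 (by rw [hψD]; exact dvd_mul_left _ _)
  obtain ⟨i₀⟩ : Nonempty ν := inferInstance
  obtain ⟨φ, hφL, hφh, hφe, hφD'⟩ := adjust A i₀ φ₀ _ hφL hφh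
  obtain ⟨ψ, hψL, hψh, hψe, hψD'⟩ := adjust A i₀ ψ₀ _ hψL hψh
  rw [hφD] at hφD'
  rw [hψD] at hψD'
  have hD0 : D3 (g • φ - f • ψ) = 0 := by
    rw [D3_sub, D3_smul, D3_smul, hφD', hψD']
    ring
  have hhom : ∀ i, ((g • φ - f • ψ) i).IsHomogeneous (Fintype.card K) := by
    intro i
    have h1 := hg.1.mul (hφh i)
    have h2 := hf.1.mul (hψh i)
    rw [show w + (Fintype.card K - w) = Fintype.card K by omega] at h1
    rw [show u + (Fintype.card K - u) = Fintype.card K by omega] at h2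
    exact h1.sub h2
  obtain ⟨α, γ, hαγ⟩ := (hKR3 K (g • φ - f • ψ) hD0).2 hhom
  by_cases hγ : γ = 0
  · exfalso
    rw [hγ, C_0, zero_smul, add_zero] at hαγ
    have h1 := congrArg (evl (A i₀)) hαγ
    rw [evl_sub, evl_smul, evl_smul, evl_smul, hφe, hψe, evl_frob0, mul_zero, mul_zero,
      sub_zero] at h1
    have hα : α = 0 := by
      rcases mul_eq_zero.1 h1.symm with h | h
      · exact h
      · exact absurd h (hlin i₀)
    rw [hα, zero_smul, sub_eq_zero] at hαγ
    exact hfg (hCOR K ν A u f g φ ψ hf0 hf hmin hφD' hαγ)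
  · have hdet : (Matrix.of ![frob K 3 0, φ, ψ]).det = C γ * Q := by
      have key : f * (Matrix.of ![frob K 3 0, φ, ψ]).det = f * (C γ * Q) := by
        have h5 : f • ψ = g • φ - α • frob K 3 0 - (C γ : MvPolynomial (Fin 3) K) • frob K 3 1 := by
          rw [sub_sub, ← hαγ]
          abel
        have c0 := congrFun h5 0
        have c1 := congrFun h5 1
        have c2 := congrFun h5 2
        simp only [Pi.smul_apply, Pi.sub_apply, smul_eq_mul] at c0 c1 c2
        have hφD'' := hφD'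
        rw [D3_expand] at hφD''
        rw [Matrix.det_fin_three]
        simp only [Matrix.of_apply, Matrix.cons_val_zero, Matrix.cons_val_one, Matrix.cons_val]
        linear_combination (-(frob K 3 0 2 * φ 1 - frob K 3 0 1 * φ 2)) * c0 -
          (frob K 3 0 0 * φ 2 - frob K 3 0 2 * φ 0) * c1 -
          (frob K 3 0 1 * φ 0 - frob K 3 0 0 * φ 1) * c2 + C γ * hφD''
      exact mul_left_cancel₀ hf0 key
    have hF : frob K 3 0 ∈ LD A := by
      intro i
      rw [evl_frob0]
    obtain ⟨b, hb⟩ := hSAI K 3 ν A hA ![frob K 3 0, φ, ψ] γ hγ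
      (by
        intro k
        fin_cases k
        · exact hF
        · exact hφL
        · exact hψL) hdet
    refine ⟨b, ?_⟩
    intro j i
    rw [hb j]
    fin_cases j
    · simpa [frob] using isHomogeneous_X K i
    · exact hφh i
    · exact hψh i

end Pool.Agent.H15.TD
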