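import Pool.Agent.H79.TD.All
import Pool.Agent.H79.TD.Stm5
import Pool.Agent.H79.TD.Fin
import Pool.Agent.H6.TD.Cor
import Pool.Agent.H77.TF.Bp3

/-!
# Project TD: the merged final statement
-/

set_option autoImplicit false

open MvPolynomial Module Pool.Agent.H77.TF Pool.Agent.H79.TD

namespace Pool.Agent.H15.TD

theorem fin6_of (hFIN4 : S_FIN4) (hSUF : S_SUF) (hGRD : S_GRD) (hCIB : S_CIB) (hCIF : S_CIF)
    (hCHI : S_CHI) (hBP3 : S_BP3) (hDU2 : S_DU2) : S_FIN6 := by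
  intro K _ _
  refine ⟨fun n A hn hA => ?_, (hFIN4 K).2⟩
  haveI : Nonempty (Fin n) := ⟨⟨0, hn⟩⟩
  have hD : unc A = uncD A := hDU2 K 3 (Fin n) A (by norm_num)
  have h4 := ((hFIN4 K).1 n A hn hA).2
  -- nonempty
  have hne : unc A ≠ 0 → (Pts A).Nonempty := by
    intro h
    rw [hD] at h
    by_contra hc
    rw [Set.not_nonempty_iff_eq_empty] at hc
    exact h (uncD_eq_zero.2 ((hBP3 K (Fin n) A).1 hc))
  -- free and not empty
  have key : (Pts A).Nonempty → Module.Free (MvPolynomial (Fin 3) K) (LD A) →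
      ∃ (u w : ℕ) (f g : MvPolynomial (Fin 3) K), 1 ≤ u ∧ u ≤ w ∧
        u + w + n = 2 * Fintype.card K + 1 ∧ f.IsHomogeneous u ∧ g.IsHomogeneous w ∧
        van A = Ideal.span {f, g} ∧ unc A = u * w := by
    intro hP hF
    obtain ⟨e, he⟩ := hGRD K 3 (Fin n) A hA hF
    obtain ⟨u, v, f, g, hf, hg, hd, hv⟩ := hCIF K (Fin n) A e hA hP he
    rcases le_total u v with h | h
    · obtain ⟨h1, h2, h3⟩ := hCHI K (Fin n) A u v f g hA hP h hf hg hd hv
      rw [Fintype.card_fin] at hd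
      exact ⟨u, v, f, g, h1, h, hd, hf, hg, hv, by rw [hD, h2]⟩
    · have hd' : v + u + Fintype.card (Fin n) = 2 * Fintype.card K + 1 := by
        rw [← hd, add_comm v u]
      have hv' : van A = Ideal.span {g, f} := by rw [hv, Set.pair_comm]
      obtain ⟨h1, h2, h3⟩ := hCHI K (Fin n) A v u g f hA hP h hg hf hd' hv'
      rw [Fintype.card_fin] at hd'
      exact ⟨v, u, g, f, h1, h, hd', hg, hf, hv', by rw [hD, h2]⟩
  -- complete intersections
  have hci : (Pts A).Nonempty → ∀ (u w : ℕ) (f g : MvPolynomial (Fin 3) K), u ≤ w →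
      u + w + n = 2 * Fintype.card K + 1 → f.IsHomogeneous u → g.IsHomogeneous w →
      van A = Ideal.span {f, g} →
      Module.Free (MvPolynomial (Fin 3) K) (LD A) ∧ unc A = u * w := by
    intro hP u w f g huw hd hf hg hv
    have hd' : u + w + Fintype.card (Fin n) = 2 * Fintype.card K + 1 := by
      rw [Fintype.card_fin]; exact hd
    refine ⟨free_of_hasExp (hCIB K (Fin n) A u w f g hA hP hf hg hd' hv), ?_⟩
    rw [hD]
    exact (hCHI K (Fin n) A u w f g hA hP huw hf hg hd' hv).2.1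
  refine ⟨⟨fun hF => ?_, ?_⟩, fun u w hu huw hs => ⟨?_, ?_⟩⟩
  · by_cases h0 : unc A = 0
    · exact Or.inl h0
    · obtain ⟨u, w, f, g, h1, h2, h3, h5, h6, h7, _⟩ := key (hne h0) hF
      exact Or.inr ⟨u, w, f, g, h1, h2, h3, h5, h6, h7⟩
  · intro h
    rcases Set.eq_empty_or_nonempty (Pts A) with hP | hP
    · have hE := (hSUF K 3 (Fin n) A (by norm_num) hA ((hBP3 K (Fin n) A).1 hP)).1
      exact free_of_hasExp hE
    · rcases h with h | ⟨u, w, f, g, h1, h2, h3, h5, h6, h7⟩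
      · exfalso
        have hB := uncD_eq_zero.1 (hD.symm.trans h)
        rw [(hBP3 K (Fin n) A).2 hB] at hP
        exact Set.not_nonempty_empty hP
      · exact (hci hP u w f g h2 h3 h5 h6 h7).1
  · have hpos : unc A = u * w → unc A ≠ 0 := by
      intro h
      rw [h]
      exact Nat.mul_ne_zero (by omega) (by omega)
    tfae_have 1 → 2 := by
      rintro ⟨hF, hunc⟩
      exact ⟨((h4 u w hu huw hs hunc).2.1.out 0 1).1 hF, hunc⟩
    tfae_have 2 → 3 := by
      rintro ⟨hE, hunc⟩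
      exact ⟨((h4 u w hu huw hs hunc).2.1.out 1 2).1 hE, hunc⟩
    tfae_have 3 → 4 := by
      rintro ⟨hk, hunc⟩
      have hF := ((h4 u w hu huw hs hunc).2.1.out 2 0).1 hk
      refine ⟨hpos hunc, ?_⟩
      obtain ⟨u', w', f, g, h1, h2, h3, h5, h6, h7, h8⟩ := key (hne (hpos hunc)) hF
      have h9 : u = u' := pair_unique huw h2 (by omega) (by rw [← hunc, h8])
      have h10 : w = w' := by omega
      subst h9
      subst h10
      exact ⟨f, g, h5, h6, h7⟩
    tfae_have 4 → 1 := by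
      rintro ⟨h0, f, g, hf, hg, hv⟩
      exact hci (hne h0) u w f g huw hs hf hg hv
    tfae_finish
  · intro hunc
    have h := h4 u w hu huw hs hunc
    exact ⟨h.1, h.2.2⟩

theorem fin6 : S_FIN6 := by
  have hPRI : S_PRI := pri
  have hDET : S_DET := det
  have hSAI : S_SAI := Pool.Agent.H27.TF.sai hPRI hDET
  have hCFS : S_CFS := Pool.Agent.H64.TF.cfs
  have hDD3 : S_DD3 := Pool.Agent.H27.TF.dd3 hPRI hDET
  have hMR3 : S_MR3 := Pool.Agent.H6.TC.mr3
  have hGC3 : S_GC3 := gc3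
  have hKR3 : S_KR3 := Pool.Agent.H91.TF.kr3 hGC3
  have hCIF : S_CIF := Pool.Agent.H12.TF.cif hDD3 hMR3 hGC3 hCFS hPRI hDET
  have hCIB : S_CIB := Pool.Agent.H15.TF.cib hDD3 hMR3 hGC3 hKR3 hSAI
  have hDIM : Pool.Agent.H79.TD.S_DIM := Pool.Agent.H53.TD.t_DIM
  have hREP : S_REP := Pool.Agent.H27.TD.t_REP
  have hSUM : S_SUM := Pool.Agent.H27.TD.t_SUM
  have hDU3 : S_DU3 := Pool.Agent.H53.TD.t_DU3 hDIM hREP hSUM
  have hCOR : S_COR := Pool.Agent.H6.TD.t_COR
  have hBRK : S_BRK := Pool.Agent.H39.TD.t_BRK hDD3 hMR3 hKR3 hCOR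
  have hINQ : S_INQ := Pool.Agent.H76.TD.t_INQ hDIM hDU3 hBRK
  have hBEZ : S_BEZ := Pool.Agent.H22.TD.t_BEZ hDIM hREP hGC3
  have hCHI : S_CHI := Pool.Agent.H6.TD.t_CHI hBEZ hINQ hGC3
  exact fin6_of Pool.Agent.H77.GR.fin4 suf Pool.Agent.H10.TF.grd hCIB hCIF hCHI bp3
    Pool.Agent.H83.TF.du2

end Pool.Agent.H15.TD
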